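import Mathlib
import Pool.Agent.helper32.EB.Defs2

set_option autoImplicit false

/-! # bt:GA (project BT, MP_b57423_pr): Gaussian density and convolution -/

open MeasureTheory ProbabilityTheory Filter Topology
open scoped ENNReal NNReal

namespace Pool.Agent.helper32.EB

/-- one dimensional heat kernel -/
noncomputable def GA_g (t x : ℝ) : ℝ := (√(4 * Real.pi * t))⁻¹ * Real.exp (-x ^ 2 / (4 * t))

theorem GA_g_nonneg (t x : ℝ) : 0 ≤ GA_g t x := by
  unfold GA_g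
  positivity

theorem GA_g_meas (t : ℝ) : Measurable (GA_g t) := by
  unfold GA_g
  fun_prop

theorem GA_pdf (δ : ℝ≥0) (x : ℝ) : gaussianPDFReal 0 (2 * δ) x = GA_g δ x := by
  unfold gaussianPDFReal GA_g
  rw [sub_zero, NNReal.coe_mul, NNReal.coe_ofNat]
  congr 2
  · congr 1
    ring
  · congr 1
    ring

theorem GA_hk (t : ℝ) (ht : 0 ≤ t) (z : ℂ) :
    hk t z = ENNReal.ofReal (GA_g t z.re) * ENNReal.ofReal (GA_g t z.im) := by
  rw [← ENNReal.ofReal_mul (GA_g_nonneg _ _)]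
  unfold hk GA_g
  congr 1
  have h1 : (√(4 * Real.pi * t))⁻¹ * Real.exp (-z.re ^ 2 / (4 * t)) *
      ((√(4 * Real.pi * t))⁻¹ * Real.exp (-z.im ^ 2 / (4 * t))) =
      ((√(4 * Real.pi * t)) * (√(4 * Real.pi * t)))⁻¹ *
        (Real.exp (-z.re ^ 2 / (4 * t)) * Real.exp (-z.im ^ 2 / (4 * t))) := by
    rw [mul_inv]
    ring
  rw [h1, Real.mul_self_sqrt (by positivity), ← Real.exp_add, one_div]
  congr 2
  rw [← Complex.normSq_eq_norm_sq, Complex.normSq_apply]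
  ring

theorem GA_hk_meas (t : ℝ) : Measurable (hk t) := by
  unfold hk
  fun_prop

theorem GA_mk_meas : Measurable (fun p : ℝ × ℝ => (⟨p.1, p.2⟩ : ℂ)) :=
  Complex.measurableEquivRealProd.symm.measurable

theorem GA_lintegral_vol (f : ℂ → ℝ≥0∞) (hf : Measurable f) :
    ∫⁻ z, f z = ∫⁻ x : ℝ, ∫⁻ y : ℝ, f ⟨x, y⟩ := by
  rw [← Complex.volume_preserving_equiv_real_prod.symm.lintegral_comp hf]
  exact lintegral_prod _ (hf.comp GA_mk_meas).aemeasurable

theorem GA_lintegral_gauss (δ : ℝ≥0) (f : ℂ → ℝ≥0∞) (hf : Measurable f) :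
    ∫⁻ z, f z ∂(gauss2 δ) =
      ∫⁻ x : ℝ, ∫⁻ y : ℝ, f ⟨x, y⟩ ∂(gaussianReal 0 (2 * δ)) ∂(gaussianReal 0 (2 * δ)) := by
  unfold gauss2
  rw [lintegral_map hf GA_mk_meas]
  exact lintegral_prod _ (hf.comp GA_mk_meas).aemeasurable

theorem GA_real (δ : ℝ≥0) (hδ : 0 < δ) (f : ℝ → ℝ≥0∞) (hf : Measurable f) :
    ∫⁻ x, f x ∂(gaussianReal 0 (2 * δ)) = ∫⁻ x, ENNReal.ofReal (GA_g δ x) * f x := by
  have hv : (2 * δ : ℝ≥0) ≠ 0 := by positivity
  rw [gaussianReal_of_var_ne_zero 0 hv,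
    lintegral_withDensity_eq_lintegral_mul _ (measurable_gaussianPDF 0 (2 * δ)) hf]
  refine lintegral_congr fun x => ?_
  rw [Pi.mul_apply]
  unfold gaussianPDF
  rw [GA_pdf]

theorem gauss2_density (δ : ℝ≥0) (hδ : 0 < δ) : gauss2 δ = volume.withDensity (hk δ) := by
  refine Measure.ext_of_lintegral _ fun f hf => ?_
  rw [lintegral_withDensity_eq_lintegral_mul _ (GA_hk_meas δ) hf, GA_lintegral_gauss δ f hf,
    GA_lintegral_vol _ ((GA_hk_meas δ).mul hf)]
  have hm : Measurable (fun p : ℝ × ℝ => f ⟨p.1, p.2⟩) := hf.comp GA_mk_meas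
  rw [GA_real δ hδ _ (Measurable.lintegral_prod_right hm)]
  refine lintegral_congr fun x => ?_
  have hmx : Measurable (fun y : ℝ => f ⟨x, y⟩) := hm.comp measurable_prodMk_left
  rw [GA_real δ hδ _ hmx, ← lintegral_const_mul _ (by
    exact (ENNReal.measurable_ofReal.comp (GA_g_meas _)).mul hmx)]
  refine lintegral_congr fun y => ?_
  rw [Pi.mul_apply, GA_hk δ (NNReal.coe_nonneg _), mul_assoc]

/-- completion of the square -/
theorem GA_square (δ : ℝ≥0) (hδ : 0 < δ) (t : ℝ) (ht : 0 < t) (a x : ℝ) :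
    GA_g δ x * GA_g t (a + x) =
      GA_g (t + δ) a * gaussianPDFReal (-(a * δ / (t + δ)))
        (Real.toNNReal (2 * t * δ / (t + δ))) x := by
  have hδ' : (0 : ℝ) < δ := by exact_mod_cast hδ
  have hs : 0 < t + δ := by positivity
  have hv : (0 : ℝ) < 2 * t * δ / (t + δ) := by positivity
  unfold GA_g gaussianPDFReal
  rw [Real.coe_toNNReal _ hv.le]
  have e1 : (√(4 * Real.pi * δ))⁻¹ * Real.exp (-x ^ 2 / (4 * δ)) *
      ((√(4 * Real.pi * t))⁻¹ * Real.exp (-(a + x) ^ 2 / (4 * t))) =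
      (√(4 * Real.pi * δ) * √(4 * Real.pi * t))⁻¹ *
        Real.exp (-x ^ 2 / (4 * δ) + -(a + x) ^ 2 / (4 * t)) := by
    rw [Real.exp_add, mul_inv]
    ring
  have e2 : (√(4 * Real.pi * (t + δ)))⁻¹ * Real.exp (-a ^ 2 / (4 * (t + δ))) *
      ((√(2 * Real.pi * (2 * t * δ / (t + δ))))⁻¹ *
        Real.exp (-(x - -(a * δ / (t + δ))) ^ 2 / (2 * (2 * t * δ / (t + δ))))) =
      (√(4 * Real.pi * (t + δ)) * √(2 * Real.pi * (2 * t * δ / (t + δ))))⁻¹ *
        Real.exp (-a ^ 2 / (4 * (t + δ)) +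
          -(x - -(a * δ / (t + δ))) ^ 2 / (2 * (2 * t * δ / (t + δ)))) := by
    rw [Real.exp_add, mul_inv]
    ring
  rw [e1, e2]
  congr 1
  · rw [← Real.sqrt_mul (by positivity), ← Real.sqrt_mul (by positivity)]
    congr 2
    field_simp
    ring
  · congr 1
    field_simp
    ring

theorem GA_conv1 (δ : ℝ≥0) (hδ : 0 < δ) (t : ℝ) (ht : 0 < t) (a : ℝ) :
    ∫⁻ x, ENNReal.ofReal (GA_g t (a + x)) ∂(gaussianReal 0 (2 * δ)) =
      ENNReal.ofReal (GA_g (t + δ) a) := by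
  have hδ' : (0 : ℝ) < δ := by exact_mod_cast hδ
  have hv : (0 : ℝ) < 2 * t * δ / (t + δ) := by positivity
  rw [GA_real δ hδ _ (by
    exact ENNReal.measurable_ofReal.comp ((GA_g_meas t).comp (measurable_const_add a)))]
  have h : ∀ x, ENNReal.ofReal (GA_g δ x) * ENNReal.ofReal (GA_g t (a + x)) =
      ENNReal.ofReal (GA_g (t + δ) a) * ENNReal.ofReal (gaussianPDFReal (-(a * δ / (t + δ)))
        (Real.toNNReal (2 * t * δ / (t + δ))) x) := by
    intro x
    rw [← ENNReal.ofReal_mul (GA_g_nonneg _ _), ← ENNReal.ofReal_mul (GA_g_nonneg _ _),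
      GA_square δ hδ t ht a x]
  rw [lintegral_congr h, lintegral_const_mul _ (by
    exact ENNReal.measurable_ofReal.comp (measurable_gaussianPDFReal _ _)),
    lintegral_gaussianPDFReal_eq_one _ (by
      rw [ne_eq, Real.toNNReal_eq_zero, not_le]
      exact hv), mul_one]

theorem hk_conv (δ : ℝ≥0) (t : ℝ) (ht : 0 < t) (z : ℂ) :
    ∫⁻ y, hk t (z + y) ∂(gauss2 δ) = hk (t + δ) z := by
  have hmz : Measurable (fun y => hk t (z + y)) := (GA_hk_meas t).comp (measurable_const_add z)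
  by_cases hδ : δ = 0
  · subst hδ
    rw [GA_lintegral_gauss 0 _ hmz, mul_zero,
      gaussianReal_zero_var, NNReal.coe_zero, add_zero]
    rw [lintegral_dirac, lintegral_dirac]
    congr 1
    have : (⟨0, 0⟩ : ℂ) = 0 := rfl
    rw [this, add_zero]
  · have hδ0 : 0 < δ := pos_iff_ne_zero.2 hδ
    rw [GA_lintegral_gauss δ _ hmz,
      GA_hk (t + δ) (by positivity)]
    have h : ∀ x y : ℝ, hk t (z + ⟨x, y⟩) =
        ENNReal.ofReal (GA_g t (z.re + x)) * ENNReal.ofReal (GA_g t (z.im + y)) := by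
      intro x y
      rw [GA_hk t ht.le]
      rfl
    simp only [h]
    have hm : ∀ b : ℝ, Measurable (fun x : ℝ => ENNReal.ofReal (GA_g t (b + x))) := fun b =>
      ENNReal.measurable_ofReal.comp ((GA_g_meas t).comp (measurable_const_add b))
    have h2 : ∀ x : ℝ, ∫⁻ y : ℝ, ENNReal.ofReal (GA_g t (z.re + x)) *
        ENNReal.ofReal (GA_g t (z.im + y)) ∂(gaussianReal 0 (2 * δ)) =
        ENNReal.ofReal (GA_g t (z.re + x)) * ENNReal.ofReal (GA_g (t + δ) z.im) := by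
      intro x
      rw [lintegral_const_mul _ (hm z.im), GA_conv1 δ hδ0 t ht]
    rw [lintegral_congr h2, lintegral_mul_const _ (hm z.re), GA_conv1 δ hδ0 t ht]

end Pool.Agent.helper32.EB
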