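import Mathlib
import Pool.Agent.helper32.EB.Defs2
import Pool.Agent.helper29.BT.GA

set_option autoImplicit false

/-! # bt:PA (project BT, MP_b57423_pr): planar Gaussian -/

open MeasureTheory ProbabilityTheory Filter Topology
open scoped ENNReal NNReal

namespace Pool.Agent.helper32.EB

theorem gauss2_prob (δ : ℝ≥0) : IsProbabilityMeasure (gauss2 δ) := by
  unfold gauss2
  exact Measure.isProbabilityMeasure_map GA_mk_meas.aemeasurable

theorem PA_zero : gauss2 0 = Measure.dirac 0 := by
  unfold gauss2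
  rw [mul_zero, gaussianReal_zero_var, Measure.dirac_prod_dirac, Measure.map_dirac' GA_mk_meas]
  rfl

/-- multiplication by a number of modulus one preserves the area -/
theorem PA_mp (c : ℂ) (hc : ‖c‖ = 1) : MeasurePreserving (fun y : ℂ => c * y) volume volume := by
  have h := (rotation ⟨c, by
    simpa [Submonoid.unitSphere, mem_sphere_zero_iff_norm] using hc⟩).measurePreserving
  exact h

theorem gauss2_rot (δ : ℝ≥0) (c : ℂ) (hc : ‖c‖ = 1) :
    (gauss2 δ).map (fun y => c * y) = gauss2 δ := by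
  have hm : Measurable (fun y : ℂ => c * y) := measurable_const_mul c
  by_cases hδ : δ = 0
  · subst hδ
    rw [PA_zero, Measure.map_dirac' hm, mul_zero]
  · have hδ0 : 0 < δ := pos_iff_ne_zero.2 hδ
    refine Measure.ext_of_lintegral _ fun f hf => ?_
    have hfm : Measurable (fun y => f (c * y)) := hf.comp hm
    rw [lintegral_map hf hm, gauss2_density δ hδ0,
      lintegral_withDensity_eq_lintegral_mul _ (GA_hk_meas δ) hfm,
      lintegral_withDensity_eq_lintegral_mul _ (GA_hk_meas δ) hf,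
      ← (PA_mp c hc).lintegral_comp ((GA_hk_meas δ).mul hf)]
    refine lintegral_congr fun y => ?_
    rw [Pi.mul_apply, Pi.mul_apply]
    congr 1
    unfold hk
    rw [norm_mul, hc, one_mul]

/-- the radial integral -/
theorem PA_radial (d h : ℝ) (hd : 0 < d) :
    ∫⁻ r in Set.Ioi h, ENNReal.ofReal (r / (2 * d) * Real.exp (-r ^ 2 / (4 * d))) ≤
      ENNReal.ofReal (Real.exp (-h ^ 2 / (4 * d))) ∨ h < 0 := by
  by_cases hh : h < 0
  · exact Or.inr hh
  · left
    have hh0 : 0 ≤ h := not_lt.1 hh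
    have hder : ∀ x ∈ Set.Ici h, HasDerivAt (fun r : ℝ => -Real.exp (-r ^ 2 / (4 * d)))
        (x / (2 * d) * Real.exp (-x ^ 2 / (4 * d))) x := by
      intro x _
      have h1 : HasDerivAt (fun r : ℝ => -r ^ 2 / (4 * d)) (-(2 * x) / (4 * d)) x := by
        have h2 : HasDerivAt (fun r : ℝ => r ^ 2) (2 * x) x := by
          simpa using hasDerivAt_pow 2 x
        exact (h2.neg).div_const (4 * d)
      have h3 := h1.exp.neg
      have h4 : -(Real.exp (-x ^ 2 / (4 * d)) * (-(2 * x) / (4 * d))) =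
          x / (2 * d) * Real.exp (-x ^ 2 / (4 * d)) := by
        field_simp
        ring
      rw [← h4]
      exact h3
    have htend : Tendsto (fun r : ℝ => -Real.exp (-r ^ 2 / (4 * d))) atTop (𝓝 0) := by
      rw [← neg_zero]
      refine Tendsto.neg (Real.tendsto_exp_atBot.comp ?_)
      have h1 : Tendsto (fun r : ℝ => r ^ 2 / (4 * d)) atTop atTop :=
        (tendsto_pow_atTop two_ne_zero).atTop_div_const (by positivity)
      refine (tendsto_neg_atTop_atBot.comp h1).congr fun r => ?_
      simp only [Function.comp]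
      ring
    have hpos : ∀ x ∈ Set.Ioi h, 0 ≤ x / (2 * d) * Real.exp (-x ^ 2 / (4 * d)) := by
      intro x hx
      have : 0 < x := lt_of_le_of_lt hh0 hx
      positivity
    have hint := integrableOn_Ioi_deriv_of_nonneg'  hder hpos htend
    have hval := integral_Ioi_of_hasDerivAt_of_nonneg' hder hpos htend
    rw [← ofReal_integral_eq_lintegral_ofReal hint
      ((ae_restrict_mem measurableSet_Ioi).mono hpos), hval]
    exact le_of_eq (by congr 1; ring)

theorem gauss2_tail (δ : ℝ≥0) (hδ : 0 < δ) (h : ℝ) (hh : 0 ≤ h) :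
    gauss2 δ {y | h ≤ ‖y‖} ≤ ENNReal.ofReal (Real.exp (-h ^ 2 / (4 * δ))) := by
  have hδ' : (0 : ℝ) < δ := by exact_mod_cast hδ
  have hS : MeasurableSet {y : ℂ | h ≤ ‖y‖} := measurableSet_le measurable_const measurable_norm
  rw [gauss2_density δ hδ, withDensity_apply _ hS, ← lintegral_indicator hS,
    ← Complex.lintegral_comp_polarCoord_symm]
  have h1 : ∫⁻ p in polarCoord.target, ENNReal.ofReal p.1 •
      ({y : ℂ | h ≤ ‖y‖}.indicator (hk δ)) (Complex.polarCoord.symm p) =
      ∫⁻ p in (Set.Ioi (0 : ℝ)) ×ˢ (Set.Ioo (-Real.pi) Real.pi),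
        (Set.Ici h).indicator (fun r => ENNReal.ofReal
          (r * (1 / (4 * Real.pi * δ) * Real.exp (-r ^ 2 / (4 * δ))))) p.1 := by
    refine setLIntegral_congr_fun (measurableSet_Ioi.prod measurableSet_Ioo) fun p hp => ?_
    have hp1 : 0 < p.1 := hp.1
    have hn : ‖Complex.polarCoord.symm p‖ = p.1 := by
      rw [Complex.norm_polarCoord_symm, abs_of_pos hp1]
    by_cases hph : h ≤ p.1
    · rw [Set.indicator_of_mem (show p.1 ∈ Set.Ici h from hph), Set.indicator_of_mem]
      · rw [smul_eq_mul, ENNReal.ofReal_mul hp1.le]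
        unfold hk
        rw [hn]
      · show h ≤ ‖Complex.polarCoord.symm p‖
        rw [hn]
        exact hph
    · rw [Set.indicator_of_notMem (show p.1 ∉ Set.Ici h from hph), Set.indicator_of_notMem,
        smul_zero]
      show ¬ h ≤ ‖Complex.polarCoord.symm p‖
      rw [hn]
      exact hph
  rw [h1]
  have hmeas : Measurable ((Set.Ici h).indicator (fun r : ℝ => ENNReal.ofReal
          (r * (1 / (4 * Real.pi * δ) * Real.exp (-r ^ 2 / (4 * δ)))))) := by
    refine Measurable.indicator ?_ measurableSet_Ici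
    fun_prop
  have hmf : Measurable (fun p : ℝ × ℝ => (Set.Ici h).indicator (fun r : ℝ => ENNReal.ofReal
          (r * (1 / (4 * Real.pi * δ) * Real.exp (-r ^ 2 / (4 * δ))))) p.1) :=
    hmeas.comp measurable_fst
  rw [Measure.volume_eq_prod, ← Measure.prod_restrict,
    lintegral_prod _ hmf.aemeasurable]
  simp only [lintegral_const, Measure.restrict_apply MeasurableSet.univ, Set.univ_inter,
    Real.volume_Ioo, sub_neg_eq_add]
  rw [lintegral_mul_const _ hmeas]
  have h2 : ∫⁻ r in Set.Ioi (0 : ℝ), (Set.Ici h).indicator (fun r => ENNReal.ofReal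
          (r * (1 / (4 * Real.pi * δ) * Real.exp (-r ^ 2 / (4 * δ))))) r ≤
      ∫⁻ r in Set.Ioi h, ENNReal.ofReal
          (r * (1 / (4 * Real.pi * δ) * Real.exp (-r ^ 2 / (4 * δ)))) := by
    calc ∫⁻ r in Set.Ioi (0 : ℝ), (Set.Ici h).indicator (fun r => ENNReal.ofReal
          (r * (1 / (4 * Real.pi * δ) * Real.exp (-r ^ 2 / (4 * δ))))) r
        ≤ ∫⁻ r, (Set.Ici h).indicator (fun r => ENNReal.ofReal
          (r * (1 / (4 * Real.pi * δ) * Real.exp (-r ^ 2 / (4 * δ))))) r := setLIntegral_le_lintegral _ _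
      _ = ∫⁻ r in Set.Ici h, ENNReal.ofReal
          (r * (1 / (4 * Real.pi * δ) * Real.exp (-r ^ 2 / (4 * δ)))) :=
          lintegral_indicator measurableSet_Ici _
      _ = ∫⁻ r in Set.Ioi h, ENNReal.ofReal
          (r * (1 / (4 * Real.pi * δ) * Real.exp (-r ^ 2 / (4 * δ)))) :=
          (setLIntegral_congr Ioi_ae_eq_Ici).symm
  have h3 := (PA_radial δ h hδ').resolve_right (not_lt.2 hh)
  calc (∫⁻ r in Set.Ioi (0 : ℝ), (Set.Ici h).indicator (fun r => ENNReal.ofReal
          (r * (1 / (4 * Real.pi * δ) * Real.exp (-r ^ 2 / (4 * δ))))) r) *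
        ENNReal.ofReal (Real.pi + Real.pi)
      ≤ (∫⁻ r in Set.Ioi h, ENNReal.ofReal
          (r * (1 / (4 * Real.pi * δ) * Real.exp (-r ^ 2 / (4 * δ))))) *
        ENNReal.ofReal (Real.pi + Real.pi) := by gcongr
    _ = ∫⁻ r in Set.Ioi h, ENNReal.ofReal (r / (2 * δ) * Real.exp (-r ^ 2 / (4 * δ))) := by
        rw [← lintegral_mul_const _ (by fun_prop)]
        refine setLIntegral_congr_fun measurableSet_Ioi fun r hr => ?_
        have hr0 : 0 ≤ r := hh.trans (le_of_lt hr)
        rw [← ENNReal.ofReal_mul (by positivity)]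
        congr 1
        field_simp
        ring
    _ ≤ ENNReal.ofReal (Real.exp (-h ^ 2 / (4 * δ))) := h3

end Pool.Agent.helper32.EB
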