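import Mathlib
import Pool.Agent.helper32.EB.Defs2
import Pool.Agent.helper29.BT.PA

set_option autoImplicit false

/-! # bt:PB (project BT, MP_b57423_pr): truncated law -/

open MeasureTheory ProbabilityTheory Filter Topology
open scoped ENNReal NNReal

namespace Pool.Agent.helper32.EB

theorem PB_cut_meas (h : ℝ) : Measurable (cut h) := by
  classical
  unfold cut
  exact Measurable.ite (measurableSet_lt measurable_norm measurable_const) measurable_id
    measurable_const

theorem PB_cut_norm (h : ℝ) (hh : 0 < h) (y : ℂ) : ‖cut h y‖ < h := by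
  classical
  unfold cut
  by_cases hy : ‖y‖ < h
  · rw [if_pos hy]
    exact hy
  · rw [if_neg hy, norm_zero]
    exact hh

theorem PB_cut_mul (h : ℝ) (c : ℂ) (hc : ‖c‖ = 1) (y : ℂ) : cut h (c * y) = c * cut h y := by
  classical
  unfold cut
  rw [norm_mul, hc, one_mul]
  by_cases hy : ‖y‖ < h
  · rw [if_pos hy, if_pos hy]
  · rw [if_neg hy, if_neg hy, mul_zero]

theorem PB_hk_pos (δ : ℝ≥0) (hδ : 0 < δ) (z : ℂ) : hk δ z ≠ 0 := by
  have hδ' : (0 : ℝ) < δ := by exact_mod_cast hδ
  unfold hk
  rw [ne_eq, ENNReal.ofReal_eq_zero, not_le]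
  positivity

theorem stepLaw_rot (δ : ℝ≥0) (hδ : 0 < δ) (h : ℝ) (hh : 0 < h) : RotStep (stepLaw δ h) h := by
  have hP : IsProbabilityMeasure (gauss2 δ) := gauss2_prob δ
  have hcm := PB_cut_meas h
  refine ⟨?_, ?_, ?_, ?_⟩
  · unfold stepLaw
    exact Measure.isProbabilityMeasure_map hcm.aemeasurable
  · unfold stepLaw
    rw [ae_map_iff hcm.aemeasurable (measurableSet_lt measurable_norm measurable_const)]
    exact Filter.Eventually.of_forall fun y => PB_cut_norm h hh y
  · intro c hc
    have hm : Measurable (fun y : ℂ => c * y) := measurable_const_mul c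
    unfold stepLaw
    rw [Measure.map_map hm hcm]
    have h1 : ((fun y : ℂ => c * y) ∘ cut h) = cut h ∘ (fun y : ℂ => c * y) := by
      funext y
      exact (PB_cut_mul h c hc y).symm
    rw [h1, ← Measure.map_map hcm hm, gauss2_rot δ c hc]
  · unfold stepLaw
    have hsm : AEStronglyMeasurable (fun y : ℂ => ‖y‖ ^ 2) ((gauss2 δ).map (cut h)) :=
      (continuous_norm.pow 2).aestronglyMeasurable
    rw [integral_map hcm.aemeasurable hsm]
    have hb : ∀ y, ‖‖cut h y‖ ^ 2‖ ≤ h ^ 2 := by
      intro y
      rw [Real.norm_eq_abs, abs_of_nonneg (by positivity)]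
      exact pow_le_pow_left₀ (norm_nonneg _) (PB_cut_norm h hh y).le 2
    have hint : Integrable (fun y => ‖cut h y‖ ^ 2) (gauss2 δ) := by
      refine Integrable.of_bound ?_ (h ^ 2) (Filter.Eventually.of_forall hb)
      exact ((measurable_norm.comp hcm).pow_const 2).aestronglyMeasurable
    rw [integral_pos_iff_support_of_nonneg (fun y => by positivity) hint]
    have hsub : (Metric.ball (0 : ℂ) h \ {0}) ⊆ Function.support (fun y => ‖cut h y‖ ^ 2) := by
      intro y hy
      have h1 : ‖y‖ < h := by simpa using hy.1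
      have h2 : y ≠ 0 := by
        intro h0
        exact hy.2 (by simp [h0])
      rw [Function.mem_support]
      have h3 : cut h y = y := by
        classical
        unfold cut
        rw [if_pos h1]
      rw [h3]
      have : 0 < ‖y‖ := norm_pos_iff.2 h2
      positivity
    refine lt_of_lt_of_le ?_ (measure_mono hsub)
    rw [gauss2_density δ hδ]
    refine (withDensity_absolutelyContinuous' (GA_hk_meas δ).aemeasurable
      (Filter.Eventually.of_forall (PB_hk_pos δ hδ))).pos_mono ?_
    rw [measure_diff_null (by simp)]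
    exact Metric.measure_ball_pos volume 0 hh

end Pool.Agent.helper32.EB
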