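import Pool.Agent.helper32.EB.Defs2
import Pool.Agent.helper17.BT.GE
import Pool.Agent.helper92.BT.PF
import Pool.Agent.helper97.BT.VB
import Pool.Agent.helper29.BT.PB

/-! # Project BT (MP_b57423_pr), module KA: number of pieces -/

set_option autoImplicit false

open MeasureTheory ProbabilityTheory Filter Topology
open scoped ENNReal NNReal

namespace Pool.Agent.helper32.EB

/-! ### measurability of the state of one region -/

theorem KA_upd_eq (G : Geo) (U T : Finset (Fin G.J)) : MeasurableSet {z : ℂ | upd G z U = T} := by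
  classical
  have : {z : ℂ | upd G z U = T} = ⋂ j : Fin G.J, {z : ℂ | (j ∈ U ∧ G.ρ < ‖z - G.x j‖) ↔ j ∈ T} := by
    ext z
    simp only [Set.mem_ofPred_eq, Set.mem_iInter, Finset.ext_iff, upd, Finset.mem_filter]
  rw [this]
  refine MeasurableSet.iInter fun j => ?_
  have hm : MeasurableSet {z : ℂ | G.ρ < ‖z - G.x j‖} :=
    measurableSet_lt measurable_const (by fun_prop)
  by_cases hU : j ∈ U <;> by_cases hT : j ∈ T
  · simpa [hU, hT] using hm
  · have h2 := hm.compl
    have e : {z : ℂ | (j ∈ U ∧ G.ρ < ‖z - G.x j‖) ↔ j ∈ T} = {z : ℂ | G.ρ < ‖z - G.x j‖}ᶜ := by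
      ext z
      simp [hU, hT]
    rw [e]
    exact h2
  · simp [hU, hT]
  · simp [hU, hT]

theorem KA_meas_some (G : Geo) (b : Bool) (m : ℕ) (U : Finset (Fin G.J)) :
    Measurable (β := RS G.J) (fun w : ℂ => some (b, m, upd G w U)) := by
  have h1 : @Measurable ℂ (Finset (Fin G.J)) _ ⊤ (fun w => upd G w U) := by
    let _ : MeasurableSpace (Finset (Fin G.J)) := ⊤
    refine measurable_to_countable' fun T => ?_
    exact KA_upd_eq G U T
  exact (measurable_from_top (β := RS G.J)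
    (f := fun T : Finset (Fin G.J) => some (b, m, T))).comp h1

theorem KA_rstep_meas1 (G : Geo) (q : RS G.J) : Measurable (fun w : ℂ => rstep G w q) := by
  classical
  rcases q with _ | ⟨b, m, U⟩
  · show Measurable (β := RS G.J) (fun w : ℂ => none)
    exact measurable_const
  · cases b with
    | false =>
      cases m with
      | zero =>
        show Measurable (β := RS G.J) (fun w : ℂ => if ‖w‖ ≤ G.r then none else some (false, 0, U))
        exact Measurable.ite (measurableSet_le measurable_norm measurable_const)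
          measurable_const measurable_const
      | succ m =>
        show Measurable (β := RS G.J) (fun w : ℂ => if ‖w‖ ≤ G.r then some (true, m, upd G w U)
          else some (false, m + 1, U))
        exact Measurable.ite (measurableSet_le measurable_norm measurable_const)
          (KA_meas_some G true m U) measurable_const
    | true =>
      show Measurable (β := RS G.J) (fun w : ℂ => if ‖w‖ < G.R' then some (true, m, upd G w U)
          else some (false, m, upd G w U))
      exact Measurable.ite (measurableSet_lt measurable_norm measurable_const)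
          (KA_meas_some G true m U) (KA_meas_some G false m U)

theorem KA_rstep_meas (G : Geo) : Measurable (fun p : ℂ × RS G.J => rstep G p.1 p.2) := by
  refine measurable_from_prod_countable_left fun q => ?_
  exact KA_rstep_meas1 G q

/-- one step: position and state of the region -/
noncomputable def KA_g (G : Geo) (o : ℂ) (s : ℂ × RS G.J) (y : ℂ) : ℂ × RS G.J :=
  (s.1 + y, rstep G (disp (s.1 + y - o)) s.2)

theorem KA_g_meas (G : Geo) (o : ℂ) :
    Measurable (fun p : (ℂ × RS G.J) × ℂ => KA_g G o p.1 p.2) := by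
  unfold KA_g
  refine Measurable.prodMk (by fun_prop) ?_
  have h1 : Measurable (fun p : (ℂ × RS G.J) × ℂ =>
      ((disp (p.1.1 + p.2 - o), p.1.2) : ℂ × RS G.J)) := by
    refine Measurable.prodMk ?_ ?_
    · exact disp_meas.comp (by fun_prop)
    · exact measurable_snd.comp measurable_fst
  exact (KA_rstep_meas G).comp h1

theorem KA_run (G : Geo) (o z0 : ℂ) (n : ℕ) (y : ℕ → ℂ) (N : ℕ) :
    run (KA_g G o) (z0, some (false, n, Finset.univ)) y N =
      (walk z0 y N, rstate G o n (walk z0 y) N) := by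
  induction N with
  | zero => simp [run, walk, rstate]
  | succ N ih =>
    have hw : walk z0 y (N + 1) = walk z0 y N + y N := by
      simp [walk, Finset.sum_range_succ, add_assoc]
    rw [run, ih]
    simp only [KA_g, rstate, hw]

theorem KA_run_meas {S : Type*} [MeasurableSpace S] {Ω : Type*} [MeasurableSpace Ω]
    (g : S → ℂ → S) (hg : Measurable (fun p : S × ℂ => g p.1 p.2)) (s0 : S)
    (Y : ℕ → Ω → ℂ) (hY : ∀ k, Measurable (Y k)) (n : ℕ) :
    Measurable (fun ω => run g s0 (fun k => Y k ω) n) := by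
  induction n with
  | zero => exact measurable_const
  | succ n ih =>
    simp only [run]
    exact hg.comp (ih.prodMk (hY n))

/-! ### the radii -/

theorem KA_geo (G : Geo) (hG : G.OK) : 0 < G.r ∧ G.h < G.r ∧ 0 < G.R' ∧ G.r < G.R' := by
  have hρ : 0 < G.ρ := by have := hG.hpos; have := hG.hρ; linarith
  have key : ∀ j, j ≤ G.K → G.ρ ≤ G.R (G.K - j) := by
    intro j
    induction j with
    | zero => intro _; simp [hG.RK]
    | succ j ih =>
      intro hj
      have h1 := ih (by omega)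
      have h2 := hG.dec (G.K - (j + 1)) (by omega)
      have h3 : G.K - (j + 1) + 1 = G.K - j := by omega
      rw [h3] at h2
      linarith
  have h1 := key (G.K - 1) (by omega)
  have hK := hG.K6
  have e1 : G.K - (G.K - 1) = 1 := by omega
  rw [e1] at h1
  have h2 := hG.dec 0 (by omega)
  rw [zero_add, hG.R0] at h2
  have h3 := hG.hpos
  have h4 := hG.hρ
  have h5 := hG.big
  refine ⟨by linarith, by linarith, by linarith, by linarith⟩

/-! ### the supersolution -/

/-- Green function with the constant added, normalised -/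
noncomputable def KA_v (a D : ℝ) (g : ℂ → ℝ≥0∞) (o z : ℂ) : ℝ≥0∞ :=
  (ENNReal.ofReal a + g (z - o)) / ENNReal.ofReal D

/-- the supersolution -/
noncomputable def KA_Phi (G : Geo) (a D χ : ℝ) (g : ℂ → ℝ≥0∞) (o : ℂ) : ℂ × RS G.J → ℝ≥0∞
  | (_, none) => 1
  | (z, some (false, m, _)) => ENNReal.ofReal χ ^ m * KA_v a D g o z
  | (_, some (true, m, _)) => ENNReal.ofReal χ ^ (m + 1)

theorem KA_v_meas (a D : ℝ) {g : ℂ → ℝ≥0∞} (hg : Measurable g) (o : ℂ) :
    Measurable (KA_v a D g o) := by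
  unfold KA_v
  have : Measurable (fun z : ℂ => g (z - o)) := hg.comp (by fun_prop)
  fun_prop

theorem KA_Phi_meas (G : Geo) (a D χ : ℝ) {g : ℂ → ℝ≥0∞} (hg : Measurable g) (o : ℂ) :
    Measurable (KA_Phi G a D χ g o) := by
  refine measurable_from_prod_countable_left fun q => ?_
  rcases q with _ | ⟨b, m, U⟩
  · exact measurable_const
  · cases b with
    | false => exact (KA_v_meas a D hg o).const_mul _
    | true => exact measurable_const

/-- consistency -/
def KA_Va (G : Geo) (o : ℂ) : ℂ × RS G.J → Prop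
  | (_, none) => True
  | (z, some (false, _, _)) => G.r < ‖disp (z - o)‖
  | (_, some (true, _, _)) => True

theorem KA_Va_step (G : Geo) (hG : G.OK) (o : ℂ) (s : ℂ × RS G.J) (hs : KA_Va G o s) (y : ℂ) :
    KA_Va G o (KA_g G o s y) := by
  have hgeo := KA_geo G hG
  obtain ⟨z, q⟩ := s
  rcases q with _ | ⟨b, m, U⟩
  · simp [KA_g, rstep, KA_Va]
  · cases b with
    | false =>
      cases m with
      | zero =>
        by_cases h : ‖disp (z + y - o)‖ ≤ G.r
        · simp [KA_g, rstep, KA_Va, h]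
        · simp only [KA_g, rstep, h, if_false, KA_Va]
          exact not_le.mp h
      | succ m =>
        by_cases h : ‖disp (z + y - o)‖ ≤ G.r
        · simp [KA_g, rstep, KA_Va, h]
        · simp only [KA_g, rstep, h, if_false, KA_Va]
          exact not_le.mp h
    | true =>
      by_cases h : ‖disp (z + y - o)‖ < G.R'
      · simp [KA_g, rstep, KA_Va, h]
      · simp only [KA_g, rstep, h, if_false, KA_Va]
        have := not_lt.mp h
        linarith [hgeo.2.2.2]

theorem KA_v_ge {G : Geo} (hG : G.OK) {κ C : ℝ} {g : ℂ → ℝ≥0∞} (hg : GreenFn κ C g) {a : ℝ}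
    (hpos : 0 < a + (1 / (2 * Real.pi) * Real.log (1 / G.r) - C)) (o z : ℂ)
    (hz : 0 < ‖disp (z - o)‖) (hz1 : ‖disp (z - o)‖ ≤ G.r) :
    1 ≤ KA_v a (a + (1 / (2 * Real.pi) * Real.log (1 / G.r) - C)) g o z := by
  have hgeo := KA_geo G hG
  unfold KA_v
  rw [ENNReal.le_div_iff_mul_le (Or.inl (by positivity)) (Or.inl ENNReal.ofReal_ne_top), one_mul]
  have h1 := hg.lower (z - o) (norm_pos_iff.mp hz)
  have h2 : Real.log (1 / G.r) ≤ Real.log (1 / ‖disp (z - o)‖) := by
    apply Real.log_le_log (by have := hgeo.1; positivity)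
    exact one_div_le_one_div_of_le hz hz1
  have h3 : 1 / (2 * Real.pi) * Real.log (1 / G.r) - C ≤
      1 / (2 * Real.pi) * Real.log (1 / ‖disp (z - o)‖) - C := by
    have : 0 ≤ 1 / (2 * Real.pi) := by positivity
    have := mul_le_mul_of_nonneg_left h2 this
    linarith
  calc ENNReal.ofReal (a + (1 / (2 * Real.pi) * Real.log (1 / G.r) - C))
      ≤ ENNReal.ofReal a + ENNReal.ofReal (1 / (2 * Real.pi) * Real.log (1 / G.r) - C) :=
        ENNReal.ofReal_add_le
    _ ≤ ENNReal.ofReal a + g (z - o) :=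
        add_le_add le_rfl ((ENNReal.ofReal_le_ofReal h3).trans h1)

theorem KA_v_le {G : Geo} (hG : G.OK) {κ C : ℝ} {g : ℂ → ℝ≥0∞} (hg : GreenFn κ C g) {a D χ : ℝ}
    (ha : 0 ≤ a) (hD : 0 < D) (hχ0 : 0 ≤ χ)
    (hR : 0 ≤ 1 / (2 * Real.pi) * Real.log (1 / G.R') + C)
    (hχ : a + (1 / (2 * Real.pi) * Real.log (1 / G.R') + C) ≤ χ * D) (o z : ℂ)
    (hz : G.R' ≤ ‖disp (z - o)‖) : KA_v a D g o z ≤ ENNReal.ofReal χ := by
  have hgeo := KA_geo G hG
  have hz0 : 0 < ‖disp (z - o)‖ := lt_of_lt_of_le hgeo.2.2.1 hz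
  unfold KA_v
  rw [ENNReal.div_le_iff (by positivity) ENNReal.ofReal_ne_top, ← ENNReal.ofReal_mul hχ0]
  have h1 := hg.upper (z - o) (norm_pos_iff.mp hz0)
  have h2 : Real.log (1 / ‖disp (z - o)‖) ≤ Real.log (1 / G.R') := by
    apply Real.log_le_log (by positivity)
    exact one_div_le_one_div_of_le hgeo.2.2.1 hz
  have h3 : 1 / (2 * Real.pi) * Real.log (1 / ‖disp (z - o)‖) + C ≤
      1 / (2 * Real.pi) * Real.log (1 / G.R') + C := by
    have : 0 ≤ 1 / (2 * Real.pi) := by positivity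
    have := mul_le_mul_of_nonneg_left h2 this
    linarith
  calc ENNReal.ofReal a + g (z - o)
      ≤ ENNReal.ofReal a + ENNReal.ofReal (1 / (2 * Real.pi) * Real.log (1 / G.R') + C) :=
        add_le_add le_rfl (h1.trans (ENNReal.ofReal_le_ofReal h3))
    _ = ENNReal.ofReal (a + (1 / (2 * Real.pi) * Real.log (1 / G.R') + C)) :=
        (ENNReal.ofReal_add ha hR).symm
    _ ≤ ENNReal.ofReal (χ * D) := ENNReal.ofReal_le_ofReal hχ

theorem KA_v_step {κ C : ℝ} {g : ℂ → ℝ≥0∞} (hg : GreenFn κ C g) (hκ : 0 ≤ κ)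
    (δ : ℝ≥0) (hδ : 0 < δ) (hδ1 : δ ≤ 1) (θ D : ℝ) (hθ : 0 < θ) (h : ℝ) (hh : 0 < h)
    (hθδ : Real.exp (-h ^ 2 / (4 * δ)) ≤ θ * δ) (o z : ℂ) :
    ∫⁻ y, KA_v ((1 + κ) / θ) D g o (z + y) ∂(stepLaw δ h) ≤
      ENNReal.ofReal (1 + θ * δ) * KA_v ((1 + κ) / θ) D g o z := by
  have hprob := (stepLaw_rot δ hδ h hh).prob
  have hδ' : (0 : ℝ) < δ := by exact_mod_cast hδ
  have ha : 0 ≤ (1 + κ) / θ := by positivity
  have hm : Measurable (fun y : ℂ => g (z - o + y)) := hg.meas.comp (by fun_prop)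
  have e1 : ∫⁻ y, KA_v ((1 + κ) / θ) D g o (z + y) ∂(stepLaw δ h) =
      (ENNReal.ofReal ((1 + κ) / θ) + ∫⁻ y, g (z - o + y) ∂(stepLaw δ h)) / ENNReal.ofReal D := by
    unfold KA_v
    simp_rw [div_eq_mul_inv]
    have e2 : ∀ y, z + y - o = z - o + y := fun y => by ring
    simp_rw [e2]
    have hm2 : Measurable (fun y : ℂ => ENNReal.ofReal ((1 + κ) * θ⁻¹) + g (z - o + y)) :=
      measurable_const.add hm
    rw [lintegral_mul_const _ hm2, lintegral_add_left measurable_const,
      lintegral_const, measure_univ, mul_one]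
  rw [e1]
  unfold KA_v
  rw [← mul_div_assoc]
  apply ENNReal.div_le_div_right
  have h1 := green_up_cut hg δ hδ hδ1 h hh (z - o)
  have e3 : ENNReal.ofReal (1 + θ * δ) = 1 + ENNReal.ofReal (θ * δ) := by
    rw [ENNReal.ofReal_add (by norm_num) (by positivity), ENNReal.ofReal_one]
  have e4 : ENNReal.ofReal (δ * (1 + κ)) = ENNReal.ofReal (θ * δ) * ENNReal.ofReal ((1 + κ) / θ) := by
    rw [← ENNReal.ofReal_mul (by positivity)]
    congr 1
    field_simp
  calc ENNReal.ofReal ((1 + κ) / θ) + ∫⁻ y, g (z - o + y) ∂(stepLaw δ h)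
      ≤ ENNReal.ofReal ((1 + κ) / θ) + (g (z - o) *
          (1 + ENNReal.ofReal (Real.exp (-h ^ 2 / (4 * δ)))) + ENNReal.ofReal (δ * (1 + κ))) :=
        add_le_add le_rfl h1
    _ ≤ ENNReal.ofReal ((1 + κ) / θ) + (g (z - o) *
          (1 + ENNReal.ofReal (θ * δ)) + ENNReal.ofReal (δ * (1 + κ))) := by
        gcongr
    _ = ENNReal.ofReal (1 + θ * δ) * (ENNReal.ofReal ((1 + κ) / θ) + g (z - o)) := by
        rw [e3, e4]
        ring

theorem KA_Phi_step (G : Geo) (hG : G.OK) {κ C : ℝ} {g : ℂ → ℝ≥0∞} (hg : GreenFn κ C g)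
    (hκ : 0 ≤ κ) (δ : ℝ≥0) (hδ : 0 < δ) (hδ1 : δ ≤ 1) (θ χ : ℝ) (hθ : 0 < θ)
    (hθδ : Real.exp (-G.h ^ 2 / (4 * δ)) ≤ θ * δ) (hχ0 : 0 < χ)
    (hpos : 0 < (1 + κ) / θ + (1 / (2 * Real.pi) * Real.log (1 / G.r) - C))
    (hR : 0 ≤ 1 / (2 * Real.pi) * Real.log (1 / G.R') + C)
    (hχ : (1 + κ) / θ + (1 / (2 * Real.pi) * Real.log (1 / G.R') + C) ≤
      χ * ((1 + κ) / θ + (1 / (2 * Real.pi) * Real.log (1 / G.r) - C))) (o : ℂ)
    (s : ℂ × RS G.J) (hs : KA_Va G o s) :
    ∫⁻ y, KA_Phi G ((1 + κ) / θ) ((1 + κ) / θ + (1 / (2 * Real.pi) * Real.log (1 / G.r) - C)) χ g o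
        (KA_g G o s y) ∂(stepLaw δ G.h) ≤
      ENNReal.ofReal (1 + θ * δ) *
        KA_Phi G ((1 + κ) / θ) ((1 + κ) / θ + (1 / (2 * Real.pi) * Real.log (1 / G.r) - C)) χ g o
          s := by
  have hgeo := KA_geo G hG
  have hrot := stepLaw_rot δ hδ G.h hG.hpos
  have hprob := hrot.prob
  have hδ' : (0 : ℝ) < δ := by exact_mod_cast hδ
  have ha : 0 ≤ (1 + κ) / θ := by positivity
  set a := (1 + κ) / θ with haa
  set D := a + (1 / (2 * Real.pi) * Real.log (1 / G.r) - C) with hDD
  have hone : (1 : ℝ≥0∞) ≤ ENNReal.ofReal (1 + θ * δ) := by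
    rw [← ENNReal.ofReal_one]
    apply ENNReal.ofReal_le_ofReal
    have : 0 ≤ θ * δ := by positivity
    linarith
  obtain ⟨z, q⟩ := s
  rcases q with _ | ⟨b, m, U⟩
  · have : ∀ y, KA_Phi G a D χ g o (KA_g G o (z, none) y) = 1 := by
      intro y
      simp [KA_g, rstep, KA_Phi]
    simp only [this, lintegral_const, measure_univ, mul_one]
    simpa [KA_Phi] using hone
  · cases b with
    | false =>
      have hz : G.r < ‖disp (z - o)‖ := hs
      have h1 : ∀ᵐ y ∂(stepLaw δ G.h), KA_Phi G a D χ g o (KA_g G o (z, some (false, m, U)) y) ≤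
          ENNReal.ofReal χ ^ m * KA_v a D g o (z + y) := by
        filter_upwards [hrot.bdd] with y hy
        by_cases h : ‖disp (z + y - o)‖ ≤ G.r
        · have h2 : KA_Phi G a D χ g o (KA_g G o (z, some (false, m, U)) y) =
              ENNReal.ofReal χ ^ m := by
            cases m with
            | zero => simp [KA_g, rstep, KA_Phi, h]
            | succ m => simp [KA_g, rstep, KA_Phi, h]
          rw [h2]
          have h3 : 0 < ‖disp (z + y - o)‖ := by
            have h4 := disp_norm_add (z + y - o) (-y)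
            have e : z + y - o + -y = z - o := by ring
            rw [e, norm_neg] at h4
            linarith
          have h5 := KA_v_ge hG hg hpos o (z + y) h3 h
          calc ENNReal.ofReal χ ^ m = ENNReal.ofReal χ ^ m * 1 := (mul_one _).symm
            _ ≤ _ := mul_le_mul' le_rfl h5
        · cases m with
          | zero => simp [KA_g, rstep, KA_Phi, h]
          | succ m => simp [KA_g, rstep, KA_Phi, h]
      refine (lintegral_mono_ae h1).trans ?_
      rw [lintegral_const_mul' _ _ (ENNReal.pow_ne_top ENNReal.ofReal_ne_top)]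
      have h6 := KA_v_step hg hκ δ hδ hδ1 θ D hθ G.h hG.hpos hθδ o z
      calc ENNReal.ofReal χ ^ m * ∫⁻ y, KA_v a D g o (z + y) ∂(stepLaw δ G.h)
          ≤ ENNReal.ofReal χ ^ m * (ENNReal.ofReal (1 + θ * δ) * KA_v a D g o z) :=
            mul_le_mul' le_rfl h6
        _ = ENNReal.ofReal (1 + θ * δ) * (ENNReal.ofReal χ ^ m * KA_v a D g o z) := by ring
    | true =>
      have h1 : ∀ y, KA_Phi G a D χ g o (KA_g G o (z, some (true, m, U)) y) ≤
          ENNReal.ofReal χ ^ (m + 1) := by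
        intro y
        by_cases h : ‖disp (z + y - o)‖ < G.R'
        · simp [KA_g, rstep, KA_Phi, h]
        · have h2 := KA_v_le hG hg ha hpos hχ0.le hR hχ o (z + y) (not_lt.mp h)
          have h3 : KA_Phi G a D χ g o (KA_g G o (z, some (true, m, U)) y) =
              ENNReal.ofReal χ ^ m * KA_v a D g o (z + y) := by
            simp [KA_g, rstep, KA_Phi, h]
          rw [h3, pow_succ]
          exact mul_le_mul' le_rfl h2
      refine (lintegral_mono h1).trans ?_
      rw [lintegral_const, measure_univ, mul_one]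
      calc ENNReal.ofReal χ ^ (m + 1) = 1 * ENNReal.ofReal χ ^ (m + 1) := (one_mul _).symm
        _ ≤ _ := mul_le_mul' hone le_rfl

theorem dead_bound {Ω : Type*} [MeasurableSpace Ω] {P : Measure Ω} [IsProbabilityMeasure P]
    (G : Geo) (hG : G.OK) {κ C : ℝ} {g : ℂ → ℝ≥0∞} (hg : GreenFn κ C g) (hκ : 0 ≤ κ)
    (δ : ℝ≥0) (hδ : 0 < δ) (hδ1 : δ ≤ 1) (θ χ : ℝ) (hθ : 0 < θ)
    (hθδ : Real.exp (-G.h ^ 2 / (4 * δ)) ≤ θ * δ) (hχ0 : 0 < χ) (hχ1 : χ ≤ 1)
    (hpos : 0 < (1 + κ) / θ + 1 / (2 * Real.pi) * Real.log (1 / G.r) - C)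
    (hR : 0 ≤ 1 / (2 * Real.pi) * Real.log (1 / G.R') + C)
    (hχ : (1 + κ) / θ + 1 / (2 * Real.pi) * Real.log (1 / G.R') + C ≤
      χ * ((1 + κ) / θ + 1 / (2 * Real.pi) * Real.log (1 / G.r) - C))
    {Y : ℕ → Ω → ℂ} (hY : IID P (stepLaw δ G.h) Y) (o z0 : ℂ)
    (hz0 : G.R' ≤ ‖disp (z0 - o)‖) (n N : ℕ) :
    P {ω | rstate G o n (walk z0 (fun k => Y k ω)) N = none} ≤
      ENNReal.ofReal ((1 + θ * δ) ^ N * χ ^ n) := by
  have hgeo := KA_geo G hG
  have hrot := stepLaw_rot δ hδ G.h hG.hpos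
  have hδ' : (0 : ℝ) < δ := by exact_mod_cast hδ
  have ha : 0 ≤ (1 + κ) / θ := by positivity
  have hpos' : 0 < (1 + κ) / θ + (1 / (2 * Real.pi) * Real.log (1 / G.r) - C) := by linarith
  have hχ' : (1 + κ) / θ + (1 / (2 * Real.pi) * Real.log (1 / G.R') + C) ≤
      χ * ((1 + κ) / θ + (1 / (2 * Real.pi) * Real.log (1 / G.r) - C)) := by
    rw [← add_assoc, ← add_sub_assoc]
    exact hχ
  set a := (1 + κ) / θ with haa
  set D := a + (1 / (2 * Real.pi) * Real.log (1 / G.r) - C) with hDD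
  have hgm := KA_g_meas G o
  have hPm := KA_Phi_meas G a D χ hg.meas o
  have hit := iter_bound hrot hY (KA_g G o) hgm (KA_Phi G a D χ g o) hPm (KA_Va G o)
    (fun s hs y _ => KA_Va_step G hG o s hs y) (ENNReal.ofReal (1 + θ * δ))
    (fun s hs => KA_Phi_step G hG hg hκ δ hδ hδ1 θ χ hθ hθδ hχ0 hpos' hR hχ' o s hs)
    (z0, some (false, n, Finset.univ)) (show G.r < ‖disp (z0 - o)‖ by linarith [hgeo.2.2.2]) N
  have hsub : {ω | rstate G o n (walk z0 (fun k => Y k ω)) N = none} ⊆
      {ω | 1 ≤ KA_Phi G a D χ g o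
        (run (KA_g G o) (z0, some (false, n, Finset.univ)) (fun k => Y k ω) N)} := by
    intro ω hω
    rw [Set.mem_ofPred_eq] at hω ⊢
    rw [KA_run, hω]
    simp [KA_Phi]
  have hv : KA_v a D g o z0 ≤ 1 := by
    refine (KA_v_le hG hg ha hpos' hχ0.le hR hχ' o z0 hz0).trans ?_
    rw [← ENNReal.ofReal_one]
    exact ENNReal.ofReal_le_ofReal hχ1
  calc P {ω | rstate G o n (walk z0 (fun k => Y k ω)) N = none}
      ≤ P {ω | 1 ≤ KA_Phi G a D χ g o
        (run (KA_g G o) (z0, some (false, n, Finset.univ)) (fun k => Y k ω) N)} :=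
        measure_mono hsub
    _ = 1 * P {ω | 1 ≤ KA_Phi G a D χ g o
        (run (KA_g G o) (z0, some (false, n, Finset.univ)) (fun k => Y k ω) N)} :=
        (one_mul _).symm
    _ ≤ ∫⁻ ω, KA_Phi G a D χ g o
        (run (KA_g G o) (z0, some (false, n, Finset.univ)) (fun k => Y k ω) N) ∂P :=
        mul_meas_ge_le_lintegral (hPm.comp (KA_run_meas (KA_g G o) hgm _ _ hY.meas N)) 1
    _ ≤ ENNReal.ofReal (1 + θ * δ) ^ N *
        KA_Phi G a D χ g o (z0, some (false, n, Finset.univ)) := hit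
    _ ≤ ENNReal.ofReal (1 + θ * δ) ^ N * ENNReal.ofReal χ ^ n := by
        refine mul_le_mul' le_rfl ?_
        show ENNReal.ofReal χ ^ n * KA_v a D g o z0 ≤ _
        calc ENNReal.ofReal χ ^ n * KA_v a D g o z0 ≤ ENNReal.ofReal χ ^ n * 1 :=
            mul_le_mul' le_rfl hv
          _ = _ := mul_one _
    _ = ENNReal.ofReal ((1 + θ * δ) ^ N * χ ^ n) := by
        rw [← ENNReal.ofReal_pow (by positivity), ← ENNReal.ofReal_pow hχ0.le,
          ← ENNReal.ofReal_mul (by positivity)]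

end Pool.Agent.helper32.EB
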